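import Pool.Agent.H571.JC.Fin
import Pool.Agent.H571.JL.Defs

/-! Comparison of the two forms of the definitions. -/

set_option autoImplicit false
set_option linter.all false

open Polynomial IsDedekindDomain

namespace Pool.Agent.H571.JC

open Pool.Agent.Y713.Jac (CoordRing coordMap J mapJ Gal Cochain)

section conv

variable {K : Type} [Field K] {F : K[X]} {R : Type} [CommRing R] [IsDedekindDomain R] [Algebra R K]
  [IsFractionRing R K] {s : SeparableClosure K}

theorem fixes_iff (σ : Gal K) :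
    Fixes (IntermediateField.adjoin K {s}) σ ↔ JL.Fixes {s} σ := by
  constructor
  · intro h x hx
    rw [Set.mem_singleton_iff] at hx
    subst hx
    exact h _ (IntermediateField.subset_adjoin K _ (Set.mem_singleton _))
  · intro h
    exact BC.fix_adjoin σ h

theorem conv {N : ℕ} (h : ShaPrimaryKilledBy 2 F (IntermediateField.adjoin K {s}) R N) :
    JL.ShaPrimaryKilledBy 2 F {s} R N := by
  intro f m h1 h2 h3
  have a1 : IsCocycleOn 2 F (IntermediateField.adjoin K {s}) f :=
    ⟨h1.1, fun σ τ hσ hτ => h1.2 σ τ ((fixes_iff σ).1 hσ) ((fixes_iff τ).1 hτ)⟩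
  have a2 : IsLocallyTrivialOn 2 F (IntermediateField.adjoin K {s}) R f := by
    intro v ι
    obtain ⟨P, hP⟩ := h2 v ι
    exact ⟨P, fun τ σ hσ hq => hP τ σ ((fixes_iff σ).1 hσ) hq⟩
  have a3 : IsCoboundaryOn 2 F (IntermediateField.adjoin K {s}) (fun σ => f σ ^ 2 ^ m) := by
    obtain ⟨Q, hQ⟩ := h3
    exact ⟨Q, fun σ hσ => hQ σ ((fixes_iff σ).1 hσ)⟩
  obtain ⟨Q, hQ⟩ := h f m a1 a2 a3
  exact ⟨Q, fun σ hσ => hQ σ ((fixes_iff σ).2 hσ)⟩

end conv

end Pool.Agent.H571.JC
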