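import Pool.Agent.H571.JC.Mu

/-! The twisting isomorphism, in additive notation. -/

set_option autoImplicit false
set_option linter.all false

open Polynomial IsDedekindDomain

namespace Pool.Agent.H571.JC

open Pool.Agent.Y713.Jac (CoordRing coordMap J mapJ Gal Cochain)
open Pool.Agent.Y713.SE

section add

variable {K : Type} [Field K] {L L' L'' : Type} [Field L] [Algebra K L] [Field L']
  [Algebra K L'] [Field L''] [Algebra K L'']

/-- the group `J(L)`, additively -/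
abbrev MJ (F : K[X]) (L : Type) [Field L] [Algebra K L] : Type := Additive (J 2 F L)

/-- functoriality -/
noncomputable def aJ (F : K[X]) (φ : L →ₐ[K] L') : MJ F L →+ MJ F L' :=
  MonoidHom.toAdditive (mapJ 2 F φ)

theorem aJ_aJ (F : K[X]) (φ : L →ₐ[K] L') (ψ : L' →ₐ[K] L'') (x : MJ F L) :
    aJ F ψ (aJ F φ x) = aJ F (ψ.comp φ) x := mapJ_mapJ φ ψ x

theorem aJ_id (F : K[X]) (x : MJ F L) : aJ F (AlgHom.id K L) x = x := mapJ_id x

/-- The polynomial is a product of different linear factors, of odd degree. -/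
def Good (F : K[X]) : Prop := ∃ (n : ℕ) (D : Dat 2 n K), D.f = F

theorem Good.tw {F : K[X]} (h : Good F) {d : K} (hd : d ≠ 0) : Good (C d * F) := by
  obtain ⟨n, D, rfl⟩ := h
  refine ⟨n, { D with δ := d * D.δ, hδ := mul_ne_zero hd D.hδ }, ?_⟩
  show C (d * D.δ) * ∏ i, (X - C (D.e i)) = C d * (C D.δ * ∏ i, (X - C (D.e i)))
  rw [C_mul, mul_assoc]

variable {F : K[X]} {d : K}

theorem e2 {s : L} (hs : s ^ 2 = algebraMap K L d) :
    (C d * F).map (algebraMap K L) = C (s ^ 2) * F.map (algebraMap K L) := by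
  rw [Polynomial.map_mul, map_C, hs]

theorem ne_of_sq (hd : d ≠ 0) {s : L} (hs : s ^ 2 = algebraMap K L d) : s ≠ 0 := by
  rintro rfl
  rw [zero_pow two_ne_zero] at hs
  exact hd ((map_eq_zero _).1 hs.symm)

theorem e1 (hd : d ≠ 0) {s : L} (hs : s ^ 2 = algebraMap K L d) :
    F.map (algebraMap K L) = C (s⁻¹ ^ 2) * (C d * F).map (algebraMap K L) := by
  rw [e2 hs, ← mul_assoc, ← C_mul, inv_pow, inv_mul_cancel₀ (pow_ne_zero 2 (ne_of_sq hd hs)), C_1,
    one_mul]

/-- the isomorphism with the twist -/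
noncomputable def twA (F : K[X]) (hd : d ≠ 0) {s : L} (hs : s ^ 2 = algebraMap K L d) :
    MJ F L ≃+ MJ (C d * F) L :=
  MulEquiv.toAdditive
    { toFun := pm s⁻¹ (e1 hd hs)
      invFun := pm s (e2 hs)
      left_inv := fun x => by
        rw [pm_pm (d := s * s⁻¹) _ _ (by
          rw [mul_inv_cancel₀ (ne_of_sq hd hs), one_pow, C_1, one_mul]) rfl]
        exact pm_one (mul_inv_cancel₀ (ne_of_sq hd hs)) _ x
      right_inv := fun x => by
        rw [pm_pm (d := s⁻¹ * s) _ _ (by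
          rw [inv_mul_cancel₀ (ne_of_sq hd hs), one_pow, C_1, one_mul]) rfl]
        exact pm_one (inv_mul_cancel₀ (ne_of_sq hd hs)) _ x
      map_mul' := map_mul _ }

theorem twA_act (hd : d ≠ 0) (φ : L →ₐ[K] L') {s : L} (hs : s ^ 2 = algebraMap K L d) {s' : L'}
    (hs' : s' ^ 2 = algebraMap K L' d) (h : φ s = s') (x : MJ F L) :
    aJ (C d * F) φ (twA F hd hs x) = twA F hd hs' (aJ F φ x) := by
  exact mu_cm (F := C d * F) (G := F) φ (c := s⁻¹) (c' := s'⁻¹) (by rw [map_inv₀, h]) (e1 hd hs)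
    (e1 hd hs') x

theorem pm_neg' (hF : Good F) (hd : d ≠ 0) {s s' : L} (hs : s ^ 2 = algebraMap K L d)
    (hs' : s' ^ 2 = algebraMap K L d) (h : s' = -s) (x : J 2 F L) :
    pm s'⁻¹ (e1 hd hs') x = (pm s⁻¹ (e1 hd hs) x)⁻¹ := by
  obtain ⟨n, D, rfl⟩ := hF
  have e0 : D.f.map (algebraMap K L) = C ((-1 : L) ^ 2) * D.f.map (algebraMap K L) := by
    rw [neg_one_sq, C_1, one_mul]
  have h1 : pm s'⁻¹ (e1 hd hs') x = pm s⁻¹ (e1 hd hs) (pm (-1) e0 x) :=
    (pm_pm (d := s'⁻¹) (e1 hd hs) e0 (e1 hd hs') (by rw [h, inv_neg, mul_neg_one]) x).symm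
  have h2 : pm (-1) e0 x = x⁻¹ := pm_neg D L rfl e0 x
  rw [h1, h2]
  exact map_inv _ _

theorem twA_neg (hF : Good F) (hd : d ≠ 0) {s s' : L} (hs : s ^ 2 = algebraMap K L d)
    (hs' : s' ^ 2 = algebraMap K L d) (h : s' = -s) (x : MJ F L) :
    twA F hd hs' x = - twA F hd hs x :=
  pm_neg' hF hd hs hs' h x

end add

end Pool.Agent.H571.JC
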