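import Pool.Agent.H571.BC.Des
import Pool.Agent.H571.JC.Tw

/-!
Corestriction for cocycles with values in a Jacobian; the case of a quadratic extension.
-/

set_option autoImplicit false
set_option linter.all false

open Polynomial IsDedekindDomain

namespace Pool.Agent.H571.JC

open Pool.Agent.Y713.Jac (CoordRing coordMap J mapJ Gal Cochain)
open Pool.Agent.H571.BC (Par corA corA_in corA_out corA_mul dbl' Fx FxS Step mem_FxS PairS)
open Pool.Agent.W309.TD (locConst_apply)

section cor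

variable {K : Type} [Field K] (F : K[X])

/-- the action of the Galois group -/
noncomputable def rhoJ : Gal K →* AddMonoid.End (MJ F (SeparableClosure K)) where
  toFun σ := aJ F σ.toAlgHom
  map_one' := AddMonoidHom.ext fun x => aJ_id F x
  map_mul' σ τ := AddMonoidHom.ext fun x => (aJ_aJ F τ.toAlgHom σ.toAlgHom x).symm

variable (L : IntermediateField K (SeparableClosure K))

/-- cocycles, additively -/
def CocA (f : Gal K → MJ F (SeparableClosure K)) : Prop :=
  IsLocallyConstant f ∧ ∀ σ τ : Gal K, Fixes L σ → Fixes L τ →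
    f (σ * τ) = f σ + aJ F σ.toAlgHom (f τ)

/-- coboundaries, additively -/
def CobA (f : Gal K → MJ F (SeparableClosure K)) : Prop :=
  ∃ Q : MJ F (SeparableClosure K), ∀ σ : Gal K, Fixes L σ → f σ = aJ F σ.toAlgHom Q - Q

/-- local triviality, additively -/
def LocA (E : Type) [Field E] [Algebra K E] (f : Gal K → MJ F (SeparableClosure K)) : Prop :=
  ∀ ι : SeparableClosure K →ₐ[K] SeparableClosure E, ∃ P : MJ F (SeparableClosure E),
    ∀ (τ : Gal E) (σ : Gal K), Fixes L σ → (∀ x : SeparableClosure K, τ (ι x) = ι (σ x)) →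
      aJ F ι (f σ) = aJ F (τ.toAlgHom.restrictScalars K) P - P

open scoped Classical in
/-- the corestriction, as a function on the whole group -/
noncomputable def corJ (s : SeparableClosure K) (g : Gal K)
    (f : Gal K → MJ F (SeparableClosure K)) (σ : Gal K) : MJ F (SeparableClosure K) :=
  if σ s = s then f σ + aJ F g.toAlgHom (f (g⁻¹ * σ * g))
  else aJ F g.toAlgHom (f (g⁻¹ * σ)) + f (σ * g)

variable {F} {L} {L1 L2 : IntermediateField K (SeparableClosure K)} {s : SeparableClosure K}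
  {d : K} {g : Gal K}

theorem corJ_in {f : Gal K → MJ F (SeparableClosure K)} {σ : Gal K} (h : σ s = s) :
    corJ F s g f σ = f σ + aJ F g.toAlgHom (f (g⁻¹ * σ * g)) := if_pos h

theorem corJ_eq (S : Step L1 L2 s d g) {f : Gal K → MJ F (SeparableClosure K)} {σ : Gal K}
    (h : Fixes L1 σ) : corJ F s g f σ = corA (rhoJ F) (FxS K L2) g f σ := by
  by_cases hs : σ s = s
  · rw [corJ_in hs, corA_in ((S.fF σ).2 ⟨h, hs⟩)]
    rfl
  · rw [corA_out (fun h2 => hs ((S.fF σ).1 h2).2)]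
    exact if_neg hs

open scoped Classical in
theorem corJ_lc {f : Gal K → MJ F (SeparableClosure K)} (hf : IsLocallyConstant f) :
    IsLocallyConstant (corJ F s g f) := by
  have h0 : IsLocallyConstant (fun σ : Gal K => σ s) := locConst_apply (K := K) s
  have h1 : IsLocallyConstant (fun σ : Gal K => f (g⁻¹ * σ * g)) :=
    hf.comp_continuous (f := fun σ : Gal K => g⁻¹ * σ * g) (by fun_prop)
  have h2 : IsLocallyConstant (fun σ : Gal K => f (g⁻¹ * σ)) :=
    hf.comp_continuous (f := fun σ : Gal K => g⁻¹ * σ) (by fun_prop)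
  have h3 : IsLocallyConstant (fun σ : Gal K => f (σ * g)) :=
    hf.comp_continuous (f := fun σ : Gal K => σ * g) (by fun_prop)
  have h4 := h0.prodMk ((hf.prodMk h1).prodMk (h2.prodMk h3))
  have h5 := h4.comp (fun q : SeparableClosure K × ((MJ F (SeparableClosure K) × MJ F (SeparableClosure K)) ×
      (MJ F (SeparableClosure K) × MJ F (SeparableClosure K))) =>
    if q.1 = s then q.2.1.1 + aJ F g.toAlgHom q.2.1.2
    else aJ F g.toAlgHom q.2.2.1 + q.2.2.2)
  exact h5

theorem corJ_mul (S : Step L1 L2 s d g) {f : Gal K → MJ F (SeparableClosure K)}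
    (hf : ∀ σ τ, Fixes L2 σ → Fixes L2 τ → f (σ * τ) = f σ + aJ F σ.toAlgHom (f τ)) :
    ∀ σ τ, Fixes L1 σ → Fixes L1 τ →
      corJ F s g f (σ * τ) = corJ F s g f σ + aJ F σ.toAlgHom (corJ F s g f τ) := by
  intro σ τ hσ hτ
  have h := corA_mul (ρ := rhoJ F) S.par (f := f) (fun σ hσ τ hτ => hf σ τ hσ hτ) S.g1 S.g2
    σ hσ τ hτ
  rw [corJ_eq S hσ, corJ_eq S hτ, corJ_eq S ((FxS K L1).mul_mem hσ hτ), h]
  rfl

theorem corJ_coc (S : Step L1 L2 s d g) {f : Gal K → MJ F (SeparableClosure K)}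
    (hf : CocA F L2 f) : CocA F L1 (fun σ => 2 • corJ F s g f σ) :=
  ⟨(corJ_lc hf.1).comp (fun P => 2 • P), fun σ τ hσ hτ => by
    show 2 • corJ F s g f (σ * τ) = 2 • corJ F s g f σ + aJ F σ.toAlgHom (2 • corJ F s g f τ)
    rw [corJ_mul S hf.2 σ τ hσ hτ, map_nsmul, smul_add]⟩

/-- the action of the Galois group of `E` -/
noncomputable def rhoE (F : K[X]) (E : Type) [Field E] [Algebra K E] :
    Gal E →* AddMonoid.End (MJ F (SeparableClosure E)) where
  toFun τ := aJ F (τ.toAlgHom.restrictScalars K)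
  map_one' := AddMonoidHom.ext fun x => aJ_id F x
  map_mul' σ τ := AddMonoidHom.ext fun x =>
    (aJ_aJ F (τ.toAlgHom.restrictScalars K) (σ.toAlgHom.restrictScalars K) x).symm

theorem corJ_loc (S : Step L1 L2 s d g) {E : Type} [Field E] [Algebra K E]
    {f : Gal K → MJ F (SeparableClosure K)}
    (hf : ∀ σ τ, Fixes L2 σ → Fixes L2 τ → f (σ * τ) = f σ + aJ F σ.toAlgHom (f τ))
    (h : LocA F L2 E f) : LocA F L1 E (fun σ => 2 • corJ F s g f σ) := by
  intro ι
  obtain ⟨P, hP⟩ := h ι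
  obtain ⟨P', hP'⟩ := h (ι.comp g.toAlgHom)
  have hc := corJ_mul S hf
  have key : ∀ q ∈ PairS E ι L2, aJ F ι (corJ F s g f q.2) =
      aJ F (q.1.toAlgHom.restrictScalars K) (P + P') - (P + P') := by
    rintro ⟨τ, σ⟩ ⟨hσ, hq⟩
    show aJ F ι (corJ F s g f σ) = aJ F (τ.toAlgHom.restrictScalars K) (P + P') - (P + P')
    have h1 := hP τ σ hσ hq
    have h2 := hP' τ (g⁻¹ * σ * g) (S.par.conj S.g1 hσ) (fun x => by
      show τ (ι (g x)) = ι (g ((g⁻¹ * σ * g) x))
      have h3 : g ((g⁻¹ * σ * g) x) = σ (g x) := by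
        show g (g.symm (σ (g x))) = σ (g x)
        rw [AlgEquiv.apply_symm_apply]
      rw [h3]
      exact hq (g x))
    rw [← aJ_aJ F g.toAlgHom ι] at h2
    rw [corJ_in ((S.fF σ).1 hσ).2, map_add, h1, h2, map_add]
    abel
  obtain ⟨Q, hQ⟩ := dbl' (ρ := (rhoE F E).comp (MonoidHom.fst (Gal E) (Gal K))) (PairS.par S ι)
    (f := fun q => aJ F ι (corJ F s g f q.2)) (fun a ha b hb => by
      show aJ F ι (corJ F s g f (a.2 * b.2)) = aJ F ι (corJ F s g f a.2) +
          aJ F (a.1.toAlgHom.restrictScalars K) (aJ F ι (corJ F s g f b.2))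
      have h6 : ι.comp a.2.toAlgHom = (a.1.toAlgHom.restrictScalars K).comp ι :=
        AlgHom.ext fun x => (ha.2 x).symm
      rw [hc _ _ ha.1 hb.1, map_add, aJ_aJ, h6, ← aJ_aJ]) (R := P + P') key
  refine ⟨Q, fun τ σ hσ hq => ?_⟩
  show aJ F ι (2 • corJ F s g f σ) = aJ F (τ.toAlgHom.restrictScalars K) Q - Q
  rw [map_nsmul]
  exact hQ (τ, σ) ⟨hσ, hq⟩

/-- the corestriction of a class of order dividing `N` -/
theorem corJ_tors (S : Step L1 L2 s d g) {f : Gal K → MJ F (SeparableClosure K)}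
    (hf : ∀ σ τ, Fixes L2 σ → Fixes L2 τ → f (σ * τ) = f σ + aJ F σ.toAlgHom (f τ)) {N : ℕ}
    (h : CobA F L2 (fun σ => N • f σ)) : CobA F L1 (fun σ => N • (2 • corJ F s g f σ)) := by
  obtain ⟨R, hR⟩ := h
  have hc := corJ_mul S hf
  obtain ⟨Q, hQ⟩ := dbl' (ρ := rhoJ F) S.par (f := fun σ => N • corJ F s g f σ)
    (fun a ha b hb => by
      show N • corJ F s g f (a * b) = N • corJ F s g f a + aJ F a.toAlgHom (N • corJ F s g f b)
      rw [hc _ _ ha hb, map_nsmul, smul_add]) (R := R + aJ F g.toAlgHom R) (fun σ hσ => by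
      show N • corJ F s g f σ = aJ F σ.toAlgHom (R + aJ F g.toAlgHom R) - (R + aJ F g.toAlgHom R)
      have h1 : N • f σ = aJ F σ.toAlgHom R - R := hR σ hσ
      have h2 : N • f (g⁻¹ * σ * g) = aJ F (g⁻¹ * σ * g).toAlgHom R - R :=
        hR (g⁻¹ * σ * g) (S.par.conj S.g1 hσ)
      have h3 := congrArg (aJ F g.toAlgHom) h2
      have h5 : (g.toAlgHom).comp (g⁻¹ * σ * g).toAlgHom = (σ.toAlgHom).comp g.toAlgHom :=
        AlgHom.ext fun x => by
          show g (g.symm (σ (g x))) = σ (g x)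
          rw [AlgEquiv.apply_symm_apply]
      have h4 : aJ F g.toAlgHom (aJ F (g⁻¹ * σ * g).toAlgHom R) =
          aJ F σ.toAlgHom (aJ F g.toAlgHom R) := by
        rw [aJ_aJ, h5, ← aJ_aJ]
      rw [map_nsmul, map_sub, h4] at h3
      rw [corJ_in ((S.fF σ).1 hσ).2, smul_add, h1, h3, map_add]
      abel)
  refine ⟨Q, fun σ hσ => ?_⟩
  show N • (2 • corJ F s g f σ) = aJ F σ.toAlgHom Q - Q
  rw [smul_comm]
  exact hQ σ hσ

end cor

end Pool.Agent.H571.JC
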