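import Pool.Agent.Y713.SE.Stm

/-!
# Jacobians of superelliptic curves over extensions of the base field: the definitions

`K` is the field of fractions of a Dedekind domain `R`, `J` the Jacobian of the curve `y ^ ℓ = F(x)` over
`K` (see `Pool.Agent.Y713.SE.Stm`), and `L` an extension of `K` in the separable closure of `K`. This file
has the definitions of the group `H ^ 1 (L, J)` and of its subgroup of the classes which are zero over
the completions of `L` at all the places above the maximal ideals of `R`.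
-/

set_option autoImplicit false
set_option linter.all false

open Polynomial IsDedekindDomain

namespace Pool.Agent.H571.JC

open Pool.Agent.Y713.Jac (CoordRing J mapJ Gal Cochain)

section defs

variable (ℓ : ℕ) {K : Type} [Field K] (F : K[X]) (L : IntermediateField K (SeparableClosure K))

/-- `σ` is in the subgroup `Gal(K^sep / L)` of `Gal(K^sep / K)`. -/
def Fixes (σ : Gal K) : Prop := ∀ x ∈ L, σ x = x

/-- Continuous 1-cocycles of `Gal(K^sep / L)` with values in `J(K^sep)`. (Only the values on this open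
subgroup of `Gal(K^sep / K)` matter; every continuous cocycle of the subgroup is the restriction of a
locally constant function, zero outside of the subgroup.) -/
def IsCocycleOn (f : Cochain ℓ F) : Prop :=
  IsLocallyConstant f ∧ ∀ σ τ : Gal K, Fixes L σ → Fixes L τ →
    f (σ * τ) = f σ * mapJ ℓ F σ.toAlgHom (f τ)

/-- Coboundaries. -/
def IsCoboundaryOn (f : Cochain ℓ F) : Prop :=
  ∃ Q : J ℓ F (SeparableClosure K), ∀ σ : Gal K, Fixes L σ → f σ = mapJ ℓ F σ.toAlgHom Q / Q

/-- `E` is an extension of `K` (a completion of `K`). The completions of `L` above it are the fields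
`E ι(L)` for the embeddings `ι : K^sep → E^sep` over `K`. The restriction of the class of `f` to the Galois
group of each of these fields is zero: for all `ι` there is `P ∈ J(E^sep)` with `f(τ|K^sep) = τ P / P` for
every `τ ∈ Gal(E^sep / E ι(L))`, that is for the `τ ∈ Gal(E^sep / E)` whose restriction `σ` to `K^sep` (by
`ι`) fixes the elements of `L`. -/
def IsTrivialAbove (E : Type) [Field E] [Algebra K E] (f : Cochain ℓ F) : Prop :=
  ∀ ι : SeparableClosure K →ₐ[K] SeparableClosure E, ∃ P : J ℓ F (SeparableClosure E),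
    ∀ (τ : Gal E) (σ : Gal K), Fixes L σ → (∀ x : SeparableClosure K, τ (ι x) = ι (σ x)) →
      mapJ ℓ F ι (f σ) = mapJ ℓ F (τ.toAlgHom.restrictScalars K) P / P

variable (R : Type) [CommRing R] [IsDedekindDomain R] [Algebra R K] [IsFractionRing R K]

/-- The class of `f` in `H ^ 1 (L, J)` is zero over the completions of `L` at all the places above the
maximal ideals of `R`. -/
def IsLocallyTrivialOn (f : Cochain ℓ F) : Prop :=
  ∀ v : HeightOneSpectrum R, IsTrivialAbove ℓ F L (v.adicCompletion K) f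

/-- The classes of `ℓ`-power order in `H ^ 1 (L, J)` which are zero over the completions of `L` at all the
places above the maximal ideals of `R` are killed by `N`. -/
def ShaPrimaryKilledBy (N : ℕ) : Prop :=
  ∀ (f : Cochain ℓ F) (m : ℕ), IsCocycleOn ℓ F L f → IsLocallyTrivialOn ℓ F L R f →
    IsCoboundaryOn ℓ F L (fun σ => f σ ^ ℓ ^ m) → IsCoboundaryOn ℓ F L (fun σ => f σ ^ N)

/-- The `ℓ`-adic Tate module of the group of classes in `H ^ 1 (L, J)` which are zero over the
completions of `L` at all the places above the maximal ideals of `R` is zero: for every sequence of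
classes `c m` in this group with `ℓ ^ m • c m = 0` and `ℓ • c (m + 1) = c m` all the `c m` are zero. -/
def ShaTateTrivialOn : Prop :=
  ∀ c : ℕ → Cochain ℓ F, (∀ m, IsCocycleOn ℓ F L (c m)) → (∀ m, IsLocallyTrivialOn ℓ F L R (c m)) →
    (∀ m, IsCoboundaryOn ℓ F L (fun σ => c m σ ^ ℓ ^ m)) →
    (∀ m, IsCoboundaryOn ℓ F L (fun σ => c (m + 1) σ ^ ℓ / c m σ)) →
      ∀ m, IsCoboundaryOn ℓ F L (c m)

end defs

section tate

variable {ℓ : ℕ} {K : Type} [Field K] {F : K[X]} {L : IntermediateField K (SeparableClosure K)}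

theorem cob_mul {f g : Cochain ℓ F} (hf : IsCoboundaryOn ℓ F L f) (hg : IsCoboundaryOn ℓ F L g) :
    IsCoboundaryOn ℓ F L (fun σ => f σ * g σ) := by
  obtain ⟨P, hP⟩ := hf
  obtain ⟨Q, hQ⟩ := hg
  refine ⟨P * Q, fun σ hσ => ?_⟩
  show f σ * g σ = _
  rw [hP σ hσ, hQ σ hσ, map_mul, mul_div_mul_comm]

theorem cob_div {f g : Cochain ℓ F} (hf : IsCoboundaryOn ℓ F L f) (hg : IsCoboundaryOn ℓ F L g) :
    IsCoboundaryOn ℓ F L (fun σ => f σ / g σ) := by
  obtain ⟨P, hP⟩ := hf
  obtain ⟨Q, hQ⟩ := hg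
  refine ⟨P / Q, fun σ hσ => ?_⟩
  show f σ / g σ = _
  rw [hP σ hσ, hQ σ hσ, _root_.map_div, div_div_div_comm]

theorem cob_pow {f : Cochain ℓ F} (hf : IsCoboundaryOn ℓ F L f) (n : ℕ) :
    IsCoboundaryOn ℓ F L (fun σ => f σ ^ n) := by
  obtain ⟨P, hP⟩ := hf
  refine ⟨P ^ n, fun σ hσ => ?_⟩
  show f σ ^ n = _
  rw [hP σ hσ, map_pow, div_pow]

theorem cob_congr {f g : Cochain ℓ F} (hf : IsCoboundaryOn ℓ F L f) (h : ∀ σ, Fixes L σ → g σ = f σ) :
    IsCoboundaryOn ℓ F L g := by
  obtain ⟨P, hP⟩ := hf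
  exact ⟨P, fun σ hσ => by rw [h σ hσ, hP σ hσ]⟩

/-- If the primary part is killed by a power of `ℓ`, the Tate module is zero. -/
theorem tate_of_killed {R : Type} [CommRing R] [IsDedekindDomain R] [Algebra R K]
    [IsFractionRing R K] {a : ℕ} (h : ShaPrimaryKilledBy ℓ F L R (ℓ ^ a)) :
    ShaTateTrivialOn ℓ F L R := by
  intro c h1 h2 h3 h4 m
  have key : ∀ b, IsCoboundaryOn ℓ F L (fun σ => c (m + b) σ ^ ℓ ^ b / c m σ) := by
    intro b
    induction b with
    | zero =>
      refine ⟨1, fun σ _ => ?_⟩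
      show c (m + 0) σ ^ ℓ ^ 0 / c m σ = _
      rw [map_one, div_one, pow_zero, pow_one, add_zero, div_self']
    | succ b ih =>
      refine cob_congr (cob_mul ih (cob_pow (h4 (m + b)) (ℓ ^ b))) fun σ _ => ?_
      show c (m + b + 1) σ ^ ℓ ^ (b + 1) / c m σ =
        c (m + b) σ ^ ℓ ^ b / c m σ * (c (m + b + 1) σ ^ ℓ / c (m + b) σ) ^ ℓ ^ b
      rw [div_pow, ← pow_mul, pow_succ' ℓ b, mul_comm (c (m + b) σ ^ ℓ ^ b / c m σ),
        div_mul_div_cancel]
  have e1 := h (c (m + a)) (m + a) (h1 _) (h2 _) (h3 _)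
  refine cob_congr (cob_div e1 (key a)) fun σ _ => ?_
  show c m σ = c (m + a) σ ^ ℓ ^ a / (c (m + a) σ ^ ℓ ^ a / c m σ)
  rw [div_div_cancel]

end tate

end Pool.Agent.H571.JC
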