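import Pool.Agent.H571.JC.Pair

/-!
Finite fields: the set of the good twists of a hyperelliptic curve.
-/

set_option autoImplicit false
set_option linter.all false

open Polynomial IsDedekindDomain Filter

namespace Pool.Agent.H571.JC

open Pool.Agent.Y713.Jac (CoordRing coordMap J mapJ Gal Cochain IsCocycle IsCoboundary IsTrivialOver
  IsLocallyTrivial ShaPrimaryTrivial ShaTateTrivial)
open Pool.Agent.Y713.SE

theorem nsq_of {k : Type} [Field k] (K : Type) [Field K] [Algebra k[X] K] [IsFractionRing k[X] K]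
    {A : k[X]} (h : ∀ (c : k) (g : k[X]), A ≠ C c * g ^ 2) : ¬ IsSquare (algebraMap k[X] K A) := by
  rintro ⟨x, hx⟩
  obtain ⟨y, hy⟩ := IsIntegrallyClosed.exists_algebraMap_eq_of_isIntegral_pow (R := k[X])
    (x := x) (n := 2) two_pos (by
      rw [pow_two, ← hx]
      exact isIntegral_algebraMap)
  apply h 1 y
  apply IsFractionRing.injective k[X] K
  rw [C_1, one_mul, map_pow, hy, hx, pow_two]

theorem fin_main {k : Type} [Field k] [Finite k] (h2 : (2 : k) ≠ 0) (hi : IsSquare (-1 : k))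
    (K : Type) [Field K] [Algebra k[X] K] [IsFractionRing k[X] K] {n : ℕ} (hn : Odd n)
    (hn3 : 3 ≤ n) (N : ℕ) (hN : 1 ≤ N) (a : Fin n → k[X])
    (hdeg : ∀ i j, i ≠ j → (a i - a j).natDegree = N) (hsq : Squarefree (Y164.HG.Del a)) :
    ∃ S : Set k[X], (∀ D ∈ S, D ∈ Y164.HG.tw a D.natDegree) ∧
      (∀ ε : ℝ, 0 < ε → ∀ᶠ m : ℕ in atTop, Odd (m + N) →
        (1 / 6 - ε) * ((Y164.HG.tw a m).ncard : ℝ) ≤ (({D ∈ S | D.natDegree = m}).ncard : ℝ)) ∧
      ∀ D ∈ S, ∀ D' ∈ S, D ≠ D' → (∀ (c : k) (g : k[X]), D * D' ≠ C c * g ^ 2) ∧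
        ∀ s : SeparableClosure K,
          s ^ 2 = algebraMap K (SeparableClosure K) (algebraMap k[X] K (D * D')) →
          ShaPrimaryKilledBy 2
            (C (algebraMap k[X] K D) * ∏ i, (X - C (algebraMap k[X] K (a i))))
            (IntermediateField.adjoin K {s}) k[X] 4 := by
  obtain ⟨-, h⟩ := Y164.HG.final h2 hi K hn hn3 N hN a hdeg hsq
  have hinj : Function.Injective (algebraMap k[X] K) := IsFractionRing.injective k[X] K
  have h2K : (2 : K) ≠ 0 := by
    rw [← map_ofNat (algebraMap k[X] K) 2, Ne, map_eq_zero_iff _ hinj]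
    intro h0
    apply h2
    have h1 := congrArg (Polynomial.coeff · 0) h0
    simpa using h1
  have hP : Good (∏ i, (X - C (algebraMap k[X] K (a i))) : K[X]) := by
    have he : Function.Injective (fun i => algebraMap k[X] K (a i)) := by
      intro i j hij
      by_contra hne
      have h3 := hdeg i j hne
      rw [sub_eq_zero.2 (hinj hij), natDegree_zero] at h3
      omega
    have hn2 : ¬ 2 ∣ n := by
      rw [← even_iff_two_dvd, Nat.not_even_iff_odd]
      exact hn
    have hζ : IsPrimitiveRoot (-1 : k) 2 := by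
      refine IsPrimitiveRoot.neg_one (ringChar k) fun h3 => h2 ?_
      have := ringChar.Nat.cast_ringChar (R := k)
      rw [h3] at this
      exact_mod_cast this
    refine ⟨n, tDat K Nat.prime_two (by exact_mod_cast h2) hζ (δ := (1 : K)) one_ne_zero he hn2, ?_⟩
    show C (1 : K) * ∏ i, (X - C (algebraMap k[X] K (a i))) = _
    rw [C_1, one_mul]
  refine ⟨{D | D ∈ Y164.HG.tw a D.natDegree ∧ ShaPrimaryTrivial 2
    (C (algebraMap k[X] K D) * ∏ i, (X - C (algebraMap k[X] K (a i)))) k[X]},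
    fun D hD => hD.1, fun ε hε => ?_, ?_⟩
  · filter_upwards [h ε hε] with m hm hodd
    refine (hm hodd).trans ?_
    classical
    letI : Fintype k := Fintype.ofFinite k
    have hsub : {E ∈ Y164.HG.tw a m | Y164.HG.Good K a E} ⊆
        {D ∈ {D : k[X] | D ∈ Y164.HG.tw a D.natDegree ∧ ShaPrimaryTrivial 2
          (C (algebraMap k[X] K D) * ∏ i, (X - C (algebraMap k[X] K (a i)))) k[X]} |
            D.natDegree = m} := by
      rintro D ⟨h3, h4⟩
      have h5 : D.natDegree = m := h3.2.1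
      exact ⟨⟨by rw [h5]; exact h3, h4.1⟩, h5⟩
    have hfin : ({D ∈ {D : k[X] | D ∈ Y164.HG.tw a D.natDegree ∧ ShaPrimaryTrivial 2
          (C (algebraMap k[X] K D) * ∏ i, (X - C (algebraMap k[X] K (a i)))) k[X]} |
            D.natDegree = m}).Finite := by
      refine (Finset.finite_toSet (Pool.Agent.Y164.PS.Sf k m)).subset ?_
      rintro D ⟨⟨h3, -⟩, h5⟩
      rw [Finset.mem_coe, Pool.Agent.Y164.PS.mem_Sf]
      exact ⟨h3.1, h5, h3.2.2.1⟩
    exact_mod_cast Set.ncard_le_ncard hsub hfin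
  · rintro D ⟨hD, h1⟩ D' ⟨hD', h1'⟩ hne
    have hns : ∀ (c : k) (g : k[X]), D * D' ≠ C c * g ^ 2 := fun c g h3 =>
      hne (sqfree_eq hD.1 hD'.1 hD.2.2.1 hD'.2.2.1 h3)
    refine ⟨hns, fun s hs => ?_⟩
    rw [map_mul] at hs
    refine pair_killed h2K hP ((map_ne_zero_iff _ hinj).2 hD.1.ne_zero)
      ((map_ne_zero_iff _ hinj).2 hD'.1.ne_zero) ?_ h1 h1' hs
    rw [← map_mul]
    exact nsq_of K hns

end Pool.Agent.H571.JC
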