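import Pool.Agent.H571.JC.Cor

/-!
From `L1` to `L1(√d)`: the locally trivial classes over `L1(√d)` are, up to a factor, restrictions of
corestrictions, for the Jacobian and for its quadratic twist.
-/

set_option autoImplicit false
set_option linter.all false

open Polynomial IsDedekindDomain

namespace Pool.Agent.H571.JC

open Pool.Agent.Y713.Jac (CoordRing coordMap J mapJ Gal Cochain)
open Pool.Agent.H571.BC (Par corA corA_in corA_out corA_mul dbl' Fx FxS Step mem_FxS PairS)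
open Pool.Agent.W309.TD (locConst_apply)

section stp

variable {K : Type} [Field K] {F : K[X]} {L1 L2 : IntermediateField K (SeparableClosure K)}
  {s : SeparableClosure K} {d : K} {g : Gal K}

/-- the additive form of `ShaPrimaryKilledBy 2` -/
def KilledA (F : K[X]) (L : IntermediateField K (SeparableClosure K)) (R : Type) [CommRing R]
    [IsDedekindDomain R] [Algebra R K] [IsFractionRing R K] (N : ℕ) : Prop :=
  ∀ (f : Gal K → MJ F (SeparableClosure K)) (m : ℕ), CocA F L f →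
    (∀ v : HeightOneSpectrum R, LocA F L (v.adicCompletion K) f) →
    CobA F L (fun σ => (2 ^ m) • f σ) → CobA F L (fun σ => N • f σ)

theorem coc_iff {L : IntermediateField K (SeparableClosure K)} (f : Cochain 2 F) :
    CocA F L (fun σ => Additive.ofMul (f σ)) ↔ IsCocycleOn 2 F L f := Iff.rfl

theorem cob_iff {L : IntermediateField K (SeparableClosure K)} (f : Cochain 2 F) :
    CobA F L (fun σ => Additive.ofMul (f σ)) ↔ IsCoboundaryOn 2 F L f := Iff.rfl

theorem aJ_ofMul {M M' : Type} [Field M] [Algebra K M] [Field M'] [Algebra K M'] (φ : M →ₐ[K] M')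
    (x : J 2 F M) : aJ F φ (Additive.ofMul x) = Additive.ofMul (mapJ 2 F φ x) := rfl

theorem ofMul_sub {M : Type} [Field M] [Algebra K M] (x y : J 2 F M) :
    (Additive.ofMul (x / y) : MJ F M) = Additive.ofMul x - Additive.ofMul y := rfl

theorem loc_of {L : IntermediateField K (SeparableClosure K)} {E : Type} [Field E] [Algebra K E]
    (f : Cochain 2 F) (h : IsTrivialAbove 2 F L E f) :
    LocA F L E (fun σ => Additive.ofMul (f σ)) := by
  intro ι
  obtain ⟨P, hP⟩ := h ι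
  refine ⟨Additive.ofMul P, fun τ σ hσ hq => ?_⟩
  rw [aJ_ofMul, aJ_ofMul, hP τ σ hσ hq, ofMul_sub]

theorem smul_eq {L : IntermediateField K (SeparableClosure K)} (N : ℕ) (f : Cochain 2 F) :
    (fun σ => N • (Additive.ofMul (f σ) : MJ F (SeparableClosure K))) =
      fun σ => Additive.ofMul (f σ ^ N) := funext fun σ => (ofMul_pow N (f σ)).symm

theorem killed_of {L : IntermediateField K (SeparableClosure K)} {R : Type} [CommRing R]
    [IsDedekindDomain R] [Algebra R K] [IsFractionRing R K] {N : ℕ} (h : KilledA F L R N) :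
    ShaPrimaryKilledBy 2 F L R N := by
  intro f m h1 h2 h3
  have h4 := h (fun σ => Additive.ofMul (f σ)) m ((coc_iff f).2 h1) (fun v => loc_of f (h2 v))
    (by rw [smul_eq (L := L)]; exact (cob_iff _).2 h3)
  rw [smul_eq (L := L)] at h4
  exact (cob_iff _).1 h4

theorem tw_coc (hd : d ≠ 0) (hs : s ^ 2 = algebraMap K (SeparableClosure K) d)
    {L : IntermediateField K (SeparableClosure K)} (hL : s ∈ L)
    {f : Gal K → MJ F (SeparableClosure K)} (hf : CocA F L f) :
    CocA (C d * F) L (fun σ => twA F hd hs (f σ)) :=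
  ⟨hf.1.comp _, fun σ τ hσ hτ => by
    show twA F hd hs (f (σ * τ)) = twA F hd hs (f σ) +
      aJ (C d * F) σ.toAlgHom (twA F hd hs (f τ))
    rw [hf.2 σ τ hσ hτ, map_add, twA_act hd σ.toAlgHom hs hs (hσ s hL)]⟩

theorem tw_cob (hd : d ≠ 0) (hs : s ^ 2 = algebraMap K (SeparableClosure K) d)
    {L : IntermediateField K (SeparableClosure K)} (hL : s ∈ L) {N : ℕ}
    {f : Gal K → MJ F (SeparableClosure K)} (hf : CobA F L (fun σ => N • f σ)) :
    CobA (C d * F) L (fun σ => N • twA F hd hs (f σ)) := by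
  obtain ⟨Q, hQ⟩ := hf
  refine ⟨twA F hd hs Q, fun σ hσ => ?_⟩
  have h1 : N • f σ = aJ F σ.toAlgHom Q - Q := hQ σ hσ
  show N • twA F hd hs (f σ) = _
  rw [← map_nsmul, h1, map_sub, twA_act hd σ.toAlgHom hs hs (hσ s hL)]

theorem tw_loc (hd : d ≠ 0) (hs : s ^ 2 = algebraMap K (SeparableClosure K) d)
    {L : IntermediateField K (SeparableClosure K)} (hL : s ∈ L) {E : Type} [Field E] [Algebra K E]
    {f : Gal K → MJ F (SeparableClosure K)} (hf : LocA F L E f) :
    LocA (C d * F) L E (fun σ => twA F hd hs (f σ)) := by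
  intro ι
  obtain ⟨P, hP⟩ := hf ι
  have hs' : (ι s) ^ 2 = algebraMap K (SeparableClosure E) d := by
    rw [← map_pow, hs, AlgHom.commutes]
  refine ⟨twA F hd hs' P, fun τ σ hσ hq => ?_⟩
  have h1 : (τ.toAlgHom.restrictScalars K) (ι s) = ι s := by
    show τ (ι s) = ι s
    rw [hq, hσ s hL]
  rw [twA_act hd ι hs hs' rfl, hP τ σ hσ hq, map_sub,
    twA_act hd (τ.toAlgHom.restrictScalars K) hs' hs' h1]

theorem step {R : Type} [CommRing R] [IsDedekindDomain R] [Algebra R K] [IsFractionRing R K]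
    (S : Step L1 L2 s d g) (hF : Good F) (hd : d ≠ 0) (hL : s ∈ L2) {a : ℕ}
    (h1 : KilledA F L1 R (2 ^ a)) (h2 : KilledA (C d * F) L1 R (2 ^ a)) :
    KilledA F L2 R (2 ^ (a + 2)) := by
  intro f m hc hl ht
  have hs := S.sq
  obtain ⟨Q1, hQ1⟩ := h1 (fun σ => 2 • corJ F s g f σ) m (corJ_coc S hc)
    (fun v => corJ_loc S hc.2 (hl v)) (corJ_tors S hc.2 ht)
  have hc' := tw_coc hd hs hL hc
  obtain ⟨Q2, hQ2⟩ := h2 (fun σ => 2 • corJ (C d * F) s g (fun σ => twA F hd hs (f σ)) σ) m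
    (corJ_coc S hc') (fun v => corJ_loc S hc'.2 (tw_loc hd hs hL (hl v)))
    (corJ_tors S hc'.2 (tw_cob hd hs hL ht))
  refine ⟨Q1 + (twA F hd hs).symm Q2, fun σ hσ => ?_⟩
  have hσ1 : Fixes L1 σ := ((S.fF σ).1 hσ).1
  have hσs : σ s = s := ((S.fF σ).1 hσ).2
  have f1 : 2 ^ a • (2 • corJ F s g f σ) = aJ F σ.toAlgHom Q1 - Q1 := hQ1 σ hσ1
  have f2 : 2 ^ a • (2 • corJ (C d * F) s g (fun σ => twA F hd hs (f σ)) σ) =
    aJ (C d * F) σ.toAlgHom Q2 - Q2 := hQ2 σ hσ1
  have hs2 : (-s) ^ 2 = algebraMap K (SeparableClosure K) d := by rw [neg_sq, hs]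
  have g2 : corJ (C d * F) s g (fun σ => twA F hd hs (f σ)) σ =
      twA F hd hs (f σ - aJ F g.toAlgHom (f (g⁻¹ * σ * g))) := by
    rw [corJ_in hσs, twA_act hd g.toAlgHom hs hs2 S.gs, twA_neg hF hd hs hs2 rfl, map_sub]
    exact (sub_eq_add_neg _ _).symm
  rw [g2, ← map_nsmul, ← map_nsmul] at f2
  have f3 := congrArg (twA F hd hs).symm f2
  rw [AddEquiv.symm_apply_apply, map_sub] at f3
  have f4 : (twA F hd hs).symm (aJ (C d * F) σ.toAlgHom Q2) =
      aJ F σ.toAlgHom ((twA F hd hs).symm Q2) := by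
    rw [AddEquiv.symm_apply_eq, ← twA_act hd σ.toAlgHom hs hs hσs, AddEquiv.apply_symm_apply]
  rw [f4] at f3
  rw [corJ_in hσs] at f1
  show 2 ^ (a + 2) • f σ = _
  have f5 : 2 ^ (a + 2) • f σ = 2 ^ a • (2 • (f σ + aJ F g.toAlgHom (f (g⁻¹ * σ * g)))) +
      2 ^ a • (2 • (f σ - aJ F g.toAlgHom (f (g⁻¹ * σ * g)))) := by
    rw [← smul_add, ← smul_add, pow_add, mul_smul]
    congr 1
    have : f σ + aJ F g.toAlgHom (f (g⁻¹ * σ * g)) + (f σ - aJ F g.toAlgHom (f (g⁻¹ * σ * g))) =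
        2 • f σ := by
      rw [two_nsmul]; abel
    rw [this, ← mul_smul]
    norm_num
  rw [f5, f1, f3, map_add]
  abel

end stp

end Pool.Agent.H571.JC
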