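import Pool.Agent.H571.BC.Gen
import Pool.Agent.H571.JC.Stp

/-!
Multiquadratic extensions of the base field: the general theorem.
-/

set_option autoImplicit false
set_option linter.all false

open Polynomial IsDedekindDomain
open scoped Classical

namespace Pool.Agent.H571.JC

open Pool.Agent.Y713.Jac (CoordRing coordMap J mapJ Gal Cochain IsCocycle IsCoboundary IsTrivialOver
  IsLocallyTrivial ShaPrimaryTrivial ShaTateTrivial)
open Pool.Agent.H571.BC (Fx Step adj mem_adj adj_mono fx_adj step_adj)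

section gen

variable {K : Type} [Field K] {F : K[X]} {R : Type} [CommRing R] [IsDedekindDomain R] [Algebra R K]
  [IsFractionRing R K]

theorem fixes_bot (σ : Gal K) : Fixes (⊥ : IntermediateField K (SeparableClosure K)) σ := by
  intro x hx
  obtain ⟨y, rfl⟩ := IntermediateField.mem_bot.1 hx
  exact σ.commutes _

theorem loc_to {L : IntermediateField K (SeparableClosure K)} {E : Type} [Field E] [Algebra K E]
    (f : Cochain 2 F) (h : LocA F L E (fun σ => Additive.ofMul (f σ))) :
    IsTrivialAbove 2 F L E f := by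
  intro ι
  obtain ⟨P, hP⟩ := h ι
  obtain ⟨P', rfl⟩ : ∃ P', Additive.ofMul P' = P := ⟨P.toMul, rfl⟩
  refine ⟨P', fun τ σ hσ hq => ?_⟩
  have h3 := hP τ σ hσ hq
  rw [aJ_ofMul, aJ_ofMul, ← ofMul_sub] at h3
  exact Additive.ofMul.injective h3

theorem killed_to {L : IntermediateField K (SeparableClosure K)} {N : ℕ}
    (h : ShaPrimaryKilledBy 2 F L R N) : KilledA F L R N := by
  intro f m h1 h2 h3
  obtain ⟨f', rfl⟩ : ∃ f' : Cochain 2 F, (fun σ => Additive.ofMul (f' σ)) = f :=
    ⟨fun σ => (f σ).toMul, rfl⟩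
  rw [smul_eq (L := L)] at h3 ⊢
  exact (cob_iff _).2 (h f' m ((coc_iff f').1 h1) (fun v => loc_to f' (h2 v)) ((cob_iff _).1 h3))

theorem base' (h : ShaPrimaryTrivial 2 F R) : ShaPrimaryKilledBy 2 F ⊥ R 1 := by
  intro f m hc hl ht
  have h1 : IsCocycle 2 F f := ⟨hc.1, fun σ τ => hc.2 σ τ (fixes_bot σ) (fixes_bot τ)⟩
  have h2 : IsLocallyTrivial 2 F R f := by
    intro v
    obtain ⟨ι⟩ : Nonempty (SeparableClosure K →ₐ[K] SeparableClosure (v.adicCompletion K)) :=
      ⟨IsSepClosed.lift⟩
    obtain ⟨P, hP⟩ := hl v ι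
    exact ⟨ι, P, fun τ σ hq => hP τ σ (fixes_bot σ) hq⟩
  have h3 : IsCoboundary 2 F (fun σ => f σ ^ 2 ^ m) := by
    obtain ⟨Q, hQ⟩ := ht
    exact ⟨Q, fun σ => hQ σ (fixes_bot σ)⟩
  obtain ⟨Q, hQ⟩ := h f m h1 h2 h3
  refine ⟨Q, fun σ _ => ?_⟩
  show f σ ^ 1 = _
  rw [pow_one]
  exact hQ σ

theorem base (h : ShaPrimaryTrivial 2 F R) : KilledA F ⊥ R (2 ^ 0) := by
  rw [pow_zero]
  exact killed_to (base' h)

/-- **Multiquadratic extensions.** If the locally trivial classes of 2-power order for the twists of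
`J` by all the products of the `D i` are zero, the locally trivial classes of 2-power order over the
extension generated by the square roots of `u` of the `D i` are killed by `4 ^ u`. -/
theorem tower {I : Type} {s : I → SeparableClosure K} {D : I → K}
    (hs : ∀ i, s i ^ 2 = algebraMap K (SeparableClosure K) (D i)) (h2 : (2 : K) ≠ 0)
    (hD : ∀ i, D i ≠ 0) (hF : Good F) (T : Finset I)
    (hsq : ∀ J ⊆ T, J.Nonempty → ¬ IsSquare (∏ i ∈ J, D i)) :
    ∀ T0 : Finset I, Disjoint T0 T → (∀ J, T0 ⊆ J → J ⊆ T0 ∪ T →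
      ShaPrimaryTrivial 2 (C (∏ i ∈ J, D i) * F) R) →
      KilledA (C (∏ i ∈ T0, D i) * F) (adj K s T) R (2 ^ (2 * T.card)) := by
  induction T using Finset.induction_on with
  | empty =>
    intro T0 _ h
    have h1 : adj K s (∅ : Finset I) = ⊥ := by
      show IntermediateField.adjoin K (s '' ((∅ : Finset I) : Set I)) = ⊥
      rw [Finset.coe_empty, Set.image_empty, IntermediateField.adjoin_empty]
    rw [h1, Finset.card_empty, mul_zero]
    exact base (h T0 le_rfl (by simp))
  | insert a T ha ih =>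
    intro T0 hd h
    obtain ⟨g, S⟩ := step_adj (F := K) hs h2 hD ha (fun J hJ hne => by
      exact hsq J hJ hne)
    have hP : (∏ i ∈ T0, D i) ≠ 0 := Finset.prod_ne_zero_iff.2 fun i _ => hD i
    have hsq' : ∀ J ⊆ T, J.Nonempty → ¬ IsSquare (∏ i ∈ J, D i) :=
      fun J hJ => hsq J (hJ.trans (Finset.subset_insert _ _))
    have ha0 : a ∉ T0 := fun h3 => (Finset.disjoint_left.1 hd) h3 (Finset.mem_insert_self _ _)
    have hd0 : Disjoint T0 T := hd.mono_right (Finset.subset_insert _ _)
    have i1 := ih hsq' T0 hd0 (fun J h3 h4 => h J h3 (h4.trans (by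
      exact Finset.union_subset_union le_rfl (Finset.subset_insert _ _))))
    have i2 := ih hsq' (insert a T0) (by
      rw [Finset.disjoint_insert_left]
      exact ⟨ha, hd0⟩) (fun J h3 h4 => h J ((Finset.subset_insert _ _).trans h3) (h4.trans (by
        intro x hx
        rcases Finset.mem_union.1 hx with hx | hx
        · rcases Finset.mem_insert.1 hx with rfl | hx
          · exact Finset.mem_union_right _ (Finset.mem_insert_self _ _)
          · exact Finset.mem_union_left _ hx
        · exact Finset.mem_union_right _ (Finset.mem_insert_of_mem hx))))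
    have e1 : C (∏ i ∈ insert a T0, D i) * F = C (D a) * (C (∏ i ∈ T0, D i) * F) := by
      rw [Finset.prod_insert ha0, C_mul, mul_assoc]
    rw [e1] at i2
    rw [Finset.card_insert_of_notMem ha, mul_add, mul_one]
    exact step S (hF.tw hP) (hD a) (mem_adj (Finset.mem_insert_self _ _)) i1 i2

end gen

end Pool.Agent.H571.JC
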