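import Pool.Agent.Y713.SE.Phi
import Pool.Agent.Y713.SE.StmT
import Pool.Agent.H571.JC.Defs

/-!
The isomorphism of the Jacobian of a hyperelliptic curve with the Jacobian of its quadratic twist, over
a field which contains the square root; the hyperelliptic involution is the inversion.
-/

set_option autoImplicit false
set_option linter.all false

open Polynomial IsDedekindDomain

namespace Pool.Agent.H571.JC

open Pool.Agent.Y713.Jac (CoordRing coordMap J mapJ Gal Cochain)
open Pool.Agent.Y713.SE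

section mu

/-- The ring `L[x, y] / (y ^ 2 - f)`. -/
abbrev R2 {L : Type} [Field L] (f : L[X]) : Type := AdjoinRoot (X ^ 2 - C f : L[X][X])

variable {L : Type} [Field L] {f g h : L[X]}

theorem root_sq (f : L[X]) : (AdjoinRoot.root (X ^ 2 - C f : L[X][X])) ^ 2 =
    AdjoinRoot.of (X ^ 2 - C f : L[X][X]) f := by
  have h := AdjoinRoot.eval₂_root (X ^ 2 - C f : L[X][X])
  rw [eval₂_sub, eval₂_pow, eval₂_X, eval₂_C, sub_eq_zero] at h
  exact h

/-- the homomorphism `y ↦ c y` -/
noncomputable def mu (c : L) (e : g = C (c ^ 2) * f) : R2 g →+* R2 f :=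
  AdjoinRoot.lift (AdjoinRoot.of (X ^ 2 - C f : L[X][X]))
    (AdjoinRoot.of (X ^ 2 - C f : L[X][X]) (C c) * AdjoinRoot.root _) (by
    rw [eval₂_sub, eval₂_pow, eval₂_X, eval₂_C, mul_pow, root_sq, e, map_mul, ← map_pow, ← C_pow,
      sub_self])

theorem mu_of (c : L) (e : g = C (c ^ 2) * f) (a : L[X]) :
    mu c e (AdjoinRoot.of _ a) = AdjoinRoot.of _ a := AdjoinRoot.lift_of _

theorem mu_root (c : L) (e : g = C (c ^ 2) * f) :
    mu c e (AdjoinRoot.root _) = AdjoinRoot.of _ (C c) * AdjoinRoot.root _ := AdjoinRoot.lift_root _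

theorem mu_mu {b c d : L} (e : g = C (b ^ 2) * f) (e' : h = C (c ^ 2) * g) (e'' : h = C (d ^ 2) * f)
    (hd : d = b * c) : (mu b e).comp (mu c e') = mu d e'' := by
  refine AdjoinRoot.ringHom_ext (RingHom.ext fun a => ?_) ?_
  · show mu b e (mu c e' (AdjoinRoot.of _ a)) = mu d e'' (AdjoinRoot.of _ a)
    rw [mu_of, mu_of, mu_of]
  · show mu b e (mu c e' (AdjoinRoot.root _)) = mu d e'' (AdjoinRoot.root _)
    rw [mu_root, map_mul, mu_of, mu_root, mu_root, hd, C_mul, map_mul]
    ring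

theorem mu_one (e : f = C (1 ^ 2) * f) : mu 1 e = RingHom.id _ := by
  refine AdjoinRoot.ringHom_ext (RingHom.ext fun a => ?_) ?_
  · exact mu_of 1 e a
  · rw [mu_root, C_1, map_one, one_mul]
    rfl

/-- the homomorphism of Picard groups -/
noncomputable def pm (c : L) (e : g = C (c ^ 2) * f) : CommRing.Pic (R2 g) →* CommRing.Pic (R2 f) :=
  CommRing.Pic.mapRingHom (mu c e)

theorem pm_pm {b c d : L} (e : g = C (b ^ 2) * f) (e' : h = C (c ^ 2) * g)
    (e'' : h = C (d ^ 2) * f) (hd : d = b * c) (x : CommRing.Pic (R2 h)) :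
    pm b e (pm c e' x) = pm d e'' x := by
  unfold pm
  rw [CommRing.Pic.mapRingHom_mapRingHom, mu_mu e e' e'' hd]

theorem pm_one {c : L} (hc : c = 1) (e : f = C (c ^ 2) * f) (x : CommRing.Pic (R2 f)) :
    pm c e x = x := by
  subst hc
  unfold pm
  rw [mu_one, CommRing.Pic.mapRingHom_id_apply]

end mu

section base

variable {K : Type} [Field K] {F : K[X]} {L L' L'' : Type} [Field L] [Algebra K L] [Field L']
  [Algebra K L'] [Field L''] [Algebra K L'']

theorem cm_of (φ : L →ₐ[K] L') (a : L[X]) :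
    coordMap 2 F φ (AdjoinRoot.of _ a) = AdjoinRoot.of _ (a.map (φ : L →+* L')) :=
  AdjoinRoot.map_of (mapRingHom φ.toRingHom) _ _ _ a

theorem cm_root (φ : L →ₐ[K] L') :
    coordMap 2 F φ (AdjoinRoot.root _) = AdjoinRoot.root _ := AdjoinRoot.map_root _ _ _ _

theorem mapJ_mapJ (φ : L →ₐ[K] L') (ψ : L' →ₐ[K] L'') (x : J 2 F L) :
    mapJ 2 F ψ (mapJ 2 F φ x) = mapJ 2 F (ψ.comp φ) x := by
  unfold mapJ
  rw [CommRing.Pic.mapRingHom_mapRingHom]
  congr 2
  refine AdjoinRoot.ringHom_ext (RingHom.ext fun a => ?_) ?_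
  · show coordMap 2 F ψ (coordMap 2 F φ (AdjoinRoot.of _ a)) = coordMap 2 F (ψ.comp φ) (AdjoinRoot.of _ a)
    rw [cm_of, cm_of, cm_of, Polynomial.map_map]
    rfl
  · show coordMap 2 F ψ (coordMap 2 F φ (AdjoinRoot.root _)) = coordMap 2 F (ψ.comp φ) (AdjoinRoot.root _)
    rw [cm_root, cm_root, cm_root]

theorem mapJ_id (x : J 2 F L) : mapJ 2 F (AlgHom.id K L) x = x := by
  unfold mapJ
  have : coordMap 2 F (AlgHom.id K L) = RingHom.id _ := by
    refine AdjoinRoot.ringHom_ext (RingHom.ext fun a => ?_) ?_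
    · show coordMap 2 F (AlgHom.id K L) (AdjoinRoot.of _ a) = AdjoinRoot.of _ a
      rw [cm_of]
      congr 1
      exact Polynomial.map_id
    · rw [cm_root]
      rfl
  rw [this, CommRing.Pic.mapRingHom_id_apply]

theorem mu_cm {G : K[X]} (φ : L →ₐ[K] L') {c : L} {c' : L'} (hc : φ c = c')
    (e : G.map (algebraMap K L) = C (c ^ 2) * F.map (algebraMap K L))
    (e' : G.map (algebraMap K L') = C (c' ^ 2) * F.map (algebraMap K L')) (x : J 2 G L) :
    mapJ 2 F φ (pm c e x) = pm c' e' (mapJ 2 G φ x) := by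
  subst hc
  unfold mapJ pm
  rw [CommRing.Pic.mapRingHom_mapRingHom, CommRing.Pic.mapRingHom_mapRingHom]
  congr 2
  refine AdjoinRoot.ringHom_ext (RingHom.ext fun a => ?_) ?_
  · show coordMap 2 F φ (mu c e (AdjoinRoot.of _ a)) = mu (φ c) e' (coordMap 2 G φ (AdjoinRoot.of _ a))
    rw [mu_of, cm_of, cm_of, mu_of]
  · show coordMap 2 F φ (mu c e (AdjoinRoot.root _)) = mu (φ c) e' (coordMap 2 G φ (AdjoinRoot.root _))
    rw [mu_root, map_mul, cm_of, cm_root, cm_root, mu_root, Polynomial.map_C]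
    rfl

end base

section inv

/-- the hyperelliptic involution is the inversion -/
theorem pm_neg {n : ℕ} {K : Type} [Field K] (D : Dat 2 n K) (L : Type) [Field L] [Algebra K L]
    {c : L} (hc : c = -1)
    (e : D.f.map (algebraMap K L) = C (c ^ 2) * D.f.map (algebraMap K L)) (x : J 2 D.f L) :
    pm c e x = x⁻¹ := by
  subst hc
  obtain ⟨a, rfl⟩ := (D.Th_bij L).2 x
  have h1 : a * (D.base L).sC a = 1 := by
    have h := (D.base L).prod_sC a
    rw [Finset.prod_range_succ, Finset.prod_range_one] at h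
    exact h
  have h2 : pm (-1) e (D.Th L a) = D.Th L ((D.base L).sC a) := by
    have hp : pc ((D.base L).sC a) =
      CommRing.Pic.mapRingHom ((D.base L).s 1 : (D.base L).A →+* (D.base L).A) (pc a) :=
      pc_nat _ _ a
    show CommRing.Pic.mapRingHom (mu (-1) e)
      (CommRing.Pic.mapRingHom (D.cE L : (D.base L).A →+* CoordRing 2 D.f L) (pc a)) =
      CommRing.Pic.mapRingHom (D.cE L : (D.base L).A →+* CoordRing 2 D.f L)
        (pc ((D.base L).sC a))
    rw [hp, CommRing.Pic.mapRingHom_mapRingHom, CommRing.Pic.mapRingHom_mapRingHom]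
    congr 2
    have hζ : (D.base L).ζ = -1 := by
      have h3 : IsPrimitiveRoot (D.base L).ζ 2 := (D.base L).hζ
      exact h3.eq_neg_one_of_two_right
    have e1 : ∀ g, D.cE L (AdjoinRoot.of _ g) = AdjoinRoot.of _ g := fun g => crE_of _ _
    have e2 : D.cE L (AdjoinRoot.root _) = AdjoinRoot.root _ := crE_root _
    refine AdjoinRoot.ringHom_ext (RingHom.ext fun g => ?_) ?_
    · show mu (-1) e (D.cE L (AdjoinRoot.of _ g)) = D.cE L ((D.base L).s 1 (AdjoinRoot.of _ g))
      have e3 : (D.base L).s 1 (AdjoinRoot.of _ g) = AdjoinRoot.of _ g :=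
        ((D.base L).s 1).commutes g
      rw [e3, e1, mu_of]
    · show mu (-1) e (D.cE L (AdjoinRoot.root _)) = D.cE L ((D.base L).s 1 (AdjoinRoot.root _))
      have e3 : (D.base L).s 1 (AdjoinRoot.root _) =
          AdjoinRoot.of _ (C ((D.base L).ζ ^ 1)) * AdjoinRoot.root _ := (D.base L).s_y 1
      rw [e3, map_mul, e1, e2, mu_root, hζ, pow_one]
  rw [h2, eq_inv_iff_mul_eq_one, ← map_mul, mul_comm, h1, map_one]

end inv

end Pool.Agent.H571.JC
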