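import Pool.Agent.H571.JC.Gen
import Pool.Agent.Y164.HG.Cla

/-!
Pairs of good twists: the Jacobian over the quadratic extension generated by the square root of the
product.
-/

set_option autoImplicit false
set_option linter.all false

open Polynomial IsDedekindDomain
open scoped Classical

namespace Pool.Agent.H571.JC

open Pool.Agent.Y713.Jac (CoordRing coordMap J mapJ Gal Cochain IsCocycle IsCoboundary IsTrivialOver
  IsLocallyTrivial ShaPrimaryTrivial ShaTateTrivial)
open Pool.Agent.Y713.SE
open Pool.Agent.H571.BC (Fx Step adj mem_adj adj_mono fx_adj step_adj)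

section sq

variable {K : Type} [Field K] {F : K[X]} {R : Type} [CommRing R] [IsDedekindDomain R] [Algebra R K]
  [IsFractionRing R K]

/-- the twist by a square of the base field -/
theorem killed_sq {e : K} (he : e ≠ 0) {L : IntermediateField K (SeparableClosure K)} {N : ℕ}
    (h : KilledA (C (e ^ 2) * F) L R N) : KilledA F L R N := by
  have hd : e ^ 2 ≠ 0 := pow_ne_zero 2 he
  have hs : (algebraMap K (SeparableClosure K) e) ^ 2 = algebraMap K (SeparableClosure K) (e ^ 2) :=
    (map_pow _ _ _).symm
  have hL : algebraMap K (SeparableClosure K) e ∈ L := L.algebraMap_mem e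
  intro f m hc hl ht
  obtain ⟨Q, hQ⟩ := h (fun σ => twA F hd hs (f σ)) m (tw_coc hd hs hL hc)
    (fun v => tw_loc hd hs hL (hl v)) (tw_cob hd hs hL ht)
  refine ⟨(twA F hd hs).symm Q, fun σ hσ => ?_⟩
  have h1 : N • twA F hd hs (f σ) = aJ (C (e ^ 2) * F) σ.toAlgHom Q - Q := hQ σ hσ
  apply (twA F hd hs).injective
  rw [map_nsmul, h1, map_sub, ← twA_act hd σ.toAlgHom hs hs (hσ _ hL),
    AddEquiv.apply_symm_apply]

theorem killed_sq' {e : K} (he : e ≠ 0) {L : IntermediateField K (SeparableClosure K)} {N : ℕ}
    (h : KilledA F L R N) : KilledA (C (e ^ 2) * F) L R N := by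
  refine killed_sq (e := e⁻¹) (inv_ne_zero he) ?_
  have h1 : C (e⁻¹ ^ 2) * (C (e ^ 2) * F) = F := by
    rw [← mul_assoc, ← C_mul, ← mul_pow, inv_mul_cancel₀ he, one_pow, C_1, one_mul]
  rw [h1]
  exact h

/-- Two twists `C D * P` and `C D' * P`: over the quadratic extension `K(√(D D'))`. -/
theorem pair_killed {P : K[X]} {D D' : K} (h2 : (2 : K) ≠ 0) (hF : Good P) (hD : D ≠ 0)
    (hD' : D' ≠ 0) (hsq : ¬ IsSquare (D * D')) (h1 : ShaPrimaryTrivial 2 (C D * P) R)
    (h1' : ShaPrimaryTrivial 2 (C D' * P) R) {s : SeparableClosure K}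
    (hs : s ^ 2 = algebraMap K (SeparableClosure K) (D * D')) :
    ShaPrimaryKilledBy 2 (C D * P) (IntermediateField.adjoin K {s}) R 4 := by
  obtain ⟨g, S⟩ := step_adj (F := K) (s := fun _ : Unit => s) (D := fun _ : Unit => D * D')
    (fun _ => hs) h2 (fun _ => mul_ne_zero hD hD') (T := ∅) (a := ()) (Finset.notMem_empty _)
    (fun J hJ hne => by
      have h3 : J = {()} := by
        obtain ⟨y, hy⟩ := hne
        exact Finset.eq_singleton_iff_unique_mem.2 ⟨hy, fun _ _ => rfl⟩
      rw [h3, Finset.prod_singleton]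
      exact hsq)
  have e1 : adj K (fun _ : Unit => s) ∅ = ⊥ := by
    show IntermediateField.adjoin K ((fun _ : Unit => s) '' ((∅ : Finset Unit) : Set Unit)) = ⊥
    rw [Finset.coe_empty, Set.image_empty, IntermediateField.adjoin_empty]
  have e2 : ∀ T : Finset Unit, T.Nonempty →
      adj K (fun _ : Unit => s) T = IntermediateField.adjoin K {s} := by
    intro T hT
    show IntermediateField.adjoin K ((fun _ : Unit => s) '' (T : Set Unit)) = _
    congr 1
    exact Set.Nonempty.image_const (by exact_mod_cast hT) s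
  have aux : ∀ {A A' B B' : IntermediateField K (SeparableClosure K)},
      Step A B s (D * D') g → A = A' → B = B' → Step A' B' s (D * D') g := by
    intro A A' B B' h e e'
    subst e
    subst e'
    exact h
  have S := aux S e1 (e2 _ (by refine ⟨(), ?_⟩; simp))
  have h3 : KilledA (C (D * D') * (C D * P)) ⊥ R (2 ^ 0) := by
    have h4 : C (D * D') * (C D * P) = C (D ^ 2) * (C D' * P) := by
      rw [← mul_assoc, ← mul_assoc, ← C_mul, ← C_mul]
      congr 2
      ring
    rw [h4]
    exact killed_sq' hD (base h1')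
  have h5 := step S (hF.tw hD) (mul_ne_zero hD hD')
    (IntermediateField.subset_adjoin K _ (Set.mem_singleton s)) (base h1) h3
  exact killed_of h5

end sq

section poly

variable {k : Type} [Field k]

theorem sqfree_eq {D D' : k[X]} (hD : D.Monic) (hD' : D'.Monic) (hs : Squarefree D)
    (hs' : Squarefree D') {c : k} {g : k[X]} (h : D * D' = C c * g ^ 2) : D = D' := by
  have key : ∀ {A B : k[X]}, A ≠ 0 → B ≠ 0 → Squarefree A → Squarefree B → A * B = C c * g ^ 2 →
      A ∣ B := by
    intro A B hA hB hsA hsB h
    have hg : g ≠ 0 := by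
      rintro rfl
      rw [zero_pow two_ne_zero, mul_zero] at h
      exact (mul_ne_zero hA hB) h
    have hc : C c ≠ 0 := by
      intro h0
      rw [h0, zero_mul] at h
      exact (mul_ne_zero hA hB) h
    have hc' : IsUnit (C c : k[X]) := by
      rw [isUnit_C]
      exact isUnit_iff_ne_zero.2 fun h0 => hc (by rw [h0, C_0])
    rw [UniqueFactorizationMonoid.dvd_iff_emultiplicity_le hA]
    intro p hp'
    have hp := hp'.irreducible
    by_contra hlt
    push Not at hlt
    have h1 : emultiplicity p A ≤ 1 := by
      rcases (squarefree_iff_emultiplicity_le_one A).1 hsA p with h3 | h3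
      · exact h3
      · exact absurd h3 hp.not_isUnit
    have h2 : emultiplicity p B = 0 := by
      have : emultiplicity p B < 1 := lt_of_lt_of_le hlt h1
      exact ENat.lt_one_iff_eq_zero.1 this
    have h3 : emultiplicity p A = 1 := by
      refine le_antisymm h1 ?_
      rw [h2] at hlt
      exact Order.one_le_iff_pos.2 hlt
    have h4 := congrArg (emultiplicity p) h
    rw [emultiplicity_mul hp.prime, h2, h3, emultiplicity_mul hp.prime,
      emultiplicity_pow hp.prime] at h4
    have h5 : emultiplicity p (C c : k[X]) = 0 := by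
      rw [emultiplicity_eq_zero]
      exact fun h6 => hp.not_isUnit (isUnit_of_dvd_unit h6 hc')
    rw [h5, zero_add, add_zero] at h4
    have hfin : FiniteMultiplicity p g := FiniteMultiplicity.of_prime_left hp.prime hg
    rw [hfin.emultiplicity_eq_multiplicity] at h4
    have h6 : (1 : ℕ) = 2 * multiplicity p g := by exact_mod_cast h4
    omega
  have h1 := key hD.ne_zero hD'.ne_zero hs hs' h
  have h2 := key hD'.ne_zero hD.ne_zero hs' hs (by rw [mul_comm]; exact h)
  exact eq_of_monic_of_associated hD hD' (associated_of_dvd_dvd h1 h2)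

end poly

end Pool.Agent.H571.JC
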